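import Mathlib
import Pool.Agent.H516_Bern.Signs

/-! Positivity of the convolution sums of generalized Bernoulli polynomials. -/

namespace Pool.Agent.Results.MP_6eafb7_an.Positivity

open Pool.Agent.H516_Bern

/-- the sum `α_{n,k}(x)` of the problem -/
noncomputable def alpha (n k : ℕ) (x : ℝ) : ℝ :=
  (-1) ^ k * ∑ j ∈ Finset.range (2 * k + 1),
    (-1) ^ j * (n.choose j : ℝ) * (n.choose (2 * k - j) : ℝ) * B n (n - j) x * B n (n - 2 * k + j) x

/-- the sum `β_{n,k}(x)` of the problem -/
noncomputable def beta (n k : ℕ) (x : ℝ) : ℝ :=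
  (-1) ^ k * ∑ j ∈ Finset.range (2 * k + 1),
    (-1) ^ j * (n.choose j : ℝ) * (n.choose (2 * k - j) : ℝ) * B n j x * B n (2 * k - j) x

/-- Affirmative answer to Q1. -/
theorem result (n : ℕ) (_hn : 1 ≤ n) (x : ℝ) :
    (∀ k, 1 ≤ 2 * k → 2 * k ≤ n → 0 ≤ alpha n k x) ∧
    (∀ k, 2 * k ≤ n - 1 → 0 ≤ beta n k x) := by
  refine ⟨fun k _ hk => ?_, fun k _ => ?_⟩
  · have h := shift_even n x k
    rw [coeff_even] at h
    have e : alpha n k x = (-1) ^ k * ∑ j ∈ Finset.range (2 * k + 1),
        (-1) ^ j * (shiftPoly n x).coeff j * (shiftPoly n x).coeff (2 * k - j) := by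
      rw [alpha]
      congr 1
      refine Finset.sum_congr rfl fun j hj => ?_
      have hj' : j ≤ 2 * k := Nat.lt_succ_iff.1 (Finset.mem_range.1 hj)
      rw [coeff_shiftPoly, coeff_shiftPoly, show n - (2 * k - j) = n - 2 * k + j by omega]
      ring
    rwa [e]
  · have h := rev_even n x k
    rw [coeff_even] at h
    have e : beta n k x = (-1) ^ k * ∑ j ∈ Finset.range (2 * k + 1),
        (-1) ^ j * (revPoly n x).coeff j * (revPoly n x).coeff (2 * k - j) := by
      rw [beta]
      congr 1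
      refine Finset.sum_congr rfl fun j _ => ?_
      rw [coeff_revPoly, coeff_revPoly]
      ring
    rwa [e]

end Pool.Agent.Results.MP_6eafb7_an.Positivity
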